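import Pool.Agent.NormEnv.Core
import Pool.Agent.NormEnv.Crossed
import Pool.Agent.NormEnv.RowCol

/-!
# Norming crossed products by the algebra versus its injective envelope (MP_7d7ee1_an, Q1)

`Pool.Agent.NormEnv.exists_isRegular` shows that the regular covariant representation used in the
statement exists (on `L = ℓ²(G, H)`); by `IsHilbertSum` every model is unitarily equivalent to it.
-/

open scoped CStarAlgebra ComplexOrder InnerProductSpace ENNReal
open Pool.Agent.NormEnv

namespace Pool.Agent.Results.MP_7d7ee1_an.EnvelopeNorms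

universe u

/-- `C` norms `D` (both are *-subalgebras of the C*-algebra `B`): for every `k ≥ 1` and every
`k × k` matrix `X` over `D`, the norm of `X` is the supremum of `‖R X S‖` over the rows `R` and the
columns `S` over `C` of norm at most one. -/
def Norms {B : Type*} [CStarAlgebra B] [PartialOrder B] [StarOrderedRing B]
    (C D : StarSubalgebra ℂ B) : Prop :=
  ∀ k : ℕ, 1 ≤ k → ∀ X : CStarMatrix (Fin k) (Fin k) B, (∀ i j, X i j ∈ D) →
    IsLUB {r : ℝ | ∃ (R : CStarMatrix (Fin 1) (Fin k) B) (S : CStarMatrix (Fin k) (Fin 1) B),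
      (∀ i j, R i j ∈ C) ∧ (∀ i j, S i j ∈ C) ∧ ‖R‖ ≤ 1 ∧ ‖S‖ ≤ 1 ∧ r = ‖R * X * S‖} ‖X‖

/-- **Positive answer to Q1.**  Let `ι : A → I` be an injective envelope of the unital C*-algebra
`A`, let `β` be the extension to `I` of an action `α` of the discrete group `G` on `A`, and realise
the reduced crossed product of `I` by `G` on `L = ℓ²(G, H)` by means of the regular covariant
representation `(reg, lam)` attached to any faithful unital representation `π` of `I` on `H`.  If
`I` norms the reduced crossed product, then so does `A`. -/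
theorem result {G A I H L : Type u} [Group G]
    [CStarAlgebra A] [PartialOrder A] [StarOrderedRing A]
    [CStarAlgebra I] [PartialOrder I] [StarOrderedRing I]
    [NormedAddCommGroup H] [InnerProductSpace ℂ H] [CompleteSpace H]
    [NormedAddCommGroup L] [InnerProductSpace ℂ L] [CompleteSpace L]
    (ι : A →⋆ₐ[ℂ] I) (hι : IsInjectiveEnvelope ι)
    (α : G →* (A ≃⋆ₐ[ℂ] A)) (β : G →* (I ≃⋆ₐ[ℂ] I)) (hβ : ∀ g a, β g (ι a) = ι (α g a))
    (π : I →⋆ₐ[ℂ] (H →L[ℂ] H)) (hπ : Function.Injective π)
    (V : G → H →ₗᵢ[ℂ] L) (reg : I →⋆ₐ[ℂ] (L →L[ℂ] L)) (lam : G → (L →L[ℂ] L))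
    (h : IsRegular β π V reg lam) (hnorm : Norms reg.range (crossed reg lam)) :
    Norms (reg.comp ι).range (crossed reg lam) := by
  classical
  intro k hk X hX
  have hreg : Function.Injective reg := reg_injective h hπ
  obtain ⟨hub, hlub⟩ := hnorm k hk X hX
  constructor
  · rintro r ⟨R, S, hR, hS, hR1, hS1, rfl⟩
    refine hub ⟨R, S, fun i j => ?_, fun i j => ?_, hR1, hS1, rfl⟩
    · obtain ⟨a, ha⟩ := hR i j
      exact ⟨ι a, ha⟩
    · obtain ⟨a, ha⟩ := hS i j
      exact ⟨ι a, ha⟩
  · intro c hc
    have hc0 : 0 ≤ c := by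
      apply hc
      refine ⟨0, 0, fun i j => ?_, fun i j => ?_, ?_, ?_, ?_⟩
      · rw [CStarMatrix.zero_apply]; exact zero_mem _
      · rw [CStarMatrix.zero_apply]; exact zero_mem _
      · rw [norm_zero]; exact zero_le_one
      · rw [norm_zero]; exact zero_le_one
      · rw [CStarMatrix.mul_zero, norm_zero]
    apply hlub
    rintro _ ⟨R, S, hR, hS, hR1, hS1, rfl⟩
    choose r hr using fun i => hR 0 i
    choose q hq using fun j => hS j 0
    choose x hx using fun (s t : G) (i j : Fin k) => exists_entry h hπ (hX i j) s t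
    have hr' : ∀ i, reg (r i) = R 0 i := hr
    have hq' : ∀ j, reg (q j) = S j 0 := hq
    have hentry : ∀ (R : CStarMatrix (Fin 1) (Fin k) (L →L[ℂ] L))
        (S : CStarMatrix (Fin k) (Fin 1) (L →L[ℂ] L)),
        (R * X * S) 0 0 = ∑ i, ∑ j, R 0 i * X i j * S j 0 := by
      intro R S
      rw [CStarMatrix.mul_apply]
      simp only [CStarMatrix.mul_apply, Finset.sum_mul]
      rw [Finset.sum_comm]
    have hEnt : ∀ (r q : Fin k → I) (s t : G),
        Ent V (∑ i, ∑ j, reg (r i) * X i j * reg (q j)) s t =
          π (∑ i, ∑ j, β s⁻¹ (r i) * x s t i j * β t⁻¹ (q j)) := by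
      intro r q s t
      rw [Ent_sum, map_sum]
      refine Finset.sum_congr rfl fun i _ => ?_
      rw [Ent_sum, map_sum]
      refine Finset.sum_congr rfl fun j _ => ?_
      rw [Ent_conj h, hx, map_mul, map_mul]
    rw [one_norm_eq, hentry]
    simp only [← hr', ← hq']
    apply norm_le_of_mb h.hilbertSum _ hc0
    intro F
    have hrow : ∑ i, r i * star (r i) ≤ 1 := by
      rw [row_norm_le_one_iff] at hR1
      rw [← sub_nonneg]
      apply nonneg_of_map_nonneg reg hreg
      rw [map_sub, map_one, map_sum, sub_nonneg]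
      simpa only [map_mul, map_star, hr'] using hR1
    have hcol : ∑ j, star (q j) * q j ≤ 1 := by
      rw [col_norm_le_one_iff] at hS1
      rw [← sub_nonneg]
      apply nonneg_of_map_nonneg reg hreg
      rw [map_sub, map_one, map_sum, sub_nonneg]
      simpa only [map_mul, map_star, hq'] using hS1
    have hcore := core ι hι α β hβ π hπ (fun s : F => (s : G)⁻¹)
      (fun (s t : F) i j => x s t i j) hc0 (by
        intro R' C' hR' hC'
        have h1 : ‖∑ i, ∑ j, reg (ι (R' i)) * X i j * reg (ι (C' j))‖ ≤ c := by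
          apply hc
          refine ⟨CStarMatrix.ofMatrix (fun _ i => reg (ι (R' i))),
            CStarMatrix.ofMatrix (fun j _ => reg (ι (C' j))), fun i j => ⟨R' j, rfl⟩,
            fun i j => ⟨C' i, rfl⟩, ?_, ?_, ?_⟩
          · rw [row_norm_le_one_iff]
            have h2 : reg (ι (1 - ∑ i, R' i * star (R' i))) ≥ 0 := by
              have h3 := sub_nonneg.mpr hR'
              exact map_nonneg (reg.comp ι) h3
            rw [map_sub, map_sub, map_one, map_one, ge_iff_le, sub_nonneg] at h2
            simp only [map_sum, map_mul, map_star] at h2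
            exact h2
          · rw [col_norm_le_one_iff]
            have h2 : reg (ι (1 - ∑ i, star (C' i) * C' i)) ≥ 0 := by
              have h3 := sub_nonneg.mpr hC'
              exact map_nonneg (reg.comp ι) h3
            rw [map_sub, map_sub, map_one, map_one, ge_iff_le, sub_nonneg] at h2
            simp only [map_sum, map_mul, map_star] at h2
            exact h2
          · rw [one_norm_eq, hentry]
            rfl
        have h2 := mb_of_norm_le h.hilbertSum _ h1 F
        simpa only [hEnt] using h2) r q hrow hcol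
    simpa only [hEnt] using hcore

end Pool.Agent.Results.MP_7d7ee1_an.EnvelopeNorms
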